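import Pool.Agent.Helper73.HV.St

/-! # HV module RX: the covering relation -/

namespace Pool.Agent.Helper22.HV.RX

open Ordinal Cardinal ZFSet Order Pool.Agent.Helper73.HODC Pool.Agent.Helper73.HE
  Pool.Agent.Helper73.HM Pool.Agent.Helper73.HU Pool.Agent.Helper73.HV

theorem dp_e_le {e : Ordinal.{0} → Ordinal.{0}}
    (he : DP (fun v => e (v 0).rank = (v 1).rank)) (i j : ℕ) :
    DP (fun v => e (v i).rank ≤ (v j).rank) := by
  have h1 : DP (fun v => ∃ z : Ordinal.{0}, e (v i).rank = z ∧ z ≤ (v j).rank) := by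
    refine DP.exO (Q := fun z v => e (v i).rank = z ∧ z ≤ (v j).rank) ?_
    exact (he.rename (fun n => if n = 0 then i + 1 else 0)).and (DP.rank_le 0 (j + 1))
  refine h1.congr fun v => ?_
  constructor
  · intro h
    exact ⟨_, rfl, h⟩
  · rintro ⟨z, rfl, h⟩
    exact h

theorem dp_lt_e_succ {e : Ordinal.{0} → Ordinal.{0}}
    (he : DP (fun v => e (v 0).rank = (v 1).rank)) (i j : ℕ) :
    DP (fun v => (v j).rank < e ((v i).rank + 1)) := by
  have h1 : DP (fun v => ∃ s : Ordinal.{0}, ((v i).rank < s ∧ ∀ t, t < s → ¬ (v i).rank < t) ∧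
      ∃ z : Ordinal.{0}, e s = z ∧ (v j).rank < z) := by
    refine DP.exO (Q := fun s v => ((v i).rank < s ∧ ∀ t, t < s → ¬ (v i).rank < t) ∧
      ∃ z : Ordinal.{0}, e s = z ∧ (v j).rank < z) ?_
    refine ((DP.rank_lt (i + 1) 0).and ?_).and ?_
    · refine DP.allO (Q := fun t v => t < (v 0).rank → ¬ (v (i + 1)).rank < t) ?_
      exact (DP.rank_lt 0 1).imp (DP.rank_lt (i + 2) 0).not
    · refine DP.exO (Q := fun z v => e (v 0).rank = z ∧ (v (j + 1)).rank < z) ?_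
      exact (he.rename (fun n => if n = 0 then 1 else 0)).and (DP.rank_lt (j + 2) 0)
  refine h1.congr fun v => ?_
  constructor
  · intro h
    exact ⟨(v i).rank + 1, ⟨lt_add_one _, fun t ht => not_lt.2 (lt_add_one_iff.1 ht)⟩, _, rfl, h⟩
  · rintro ⟨s, ⟨h4, h5⟩, z, h6, h7⟩
    have : s = (v i).rank + 1 := by
      refine le_antisymm ?_ (add_one_le_iff.2 h4)
      by_contra h8
      exact h5 _ (not_le.1 h8) (lt_add_one _)
    rw [← this, h6]
    exact h7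

theorem rx (h1 : StWN) (h2 : StKEY) : StRX := by
  intro δ τ A C hcof hτ hA hAlt hat hC hCu hCo
  have hlim : IsSuccLimit τ := hτ.1
  let P : Ordinal.{0} → Ordinal.{0} → Ordinal.{0} → Prop := fun ξ η _ =>
    ¬ Stat {a | a ∈ A ∧ ¬ ∃ b, C a b ∧ ξ ≤ b ∧ b ≤ η} τ
  have hP : DP (fun v => P (v 0).rank (v 1).rank (v 2).rank) := by
    have h4 : DP (fun v => (v 0).rank ∈ A ∧ ¬ ∃ b, C (v 0).rank b ∧ (v 2).rank ≤ b ∧
        b ≤ (v 3).rank) := by
      refine (DPs.at hA 0).and (DP.not ?_)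
      refine DP.exO (Q := fun b v => C (v 0).rank b ∧ (v 2).rank ≤ b ∧ b ≤ (v 3).rank) ?_
      exact (hC.rename (fun n => if n = 0 then 1 else 0)).and
        ((DP.rank_le 3 0).and (DP.rank_le 0 4))
    have h5 : DP (fun v => Stat {a | a ∈ A ∧ ¬ ∃ b, C a b ∧ (v 1).rank ≤ b ∧
        b ≤ (v 2).rank} (v 0).rank) :=
      DP.statV (Q := fun a v => a ∈ A ∧ ¬ ∃ b, C a b ∧ (v 1).rank ≤ b ∧ b ≤ (v 2).rank) h4 0
    exact (dp_subst_at (Q := fun x v => Stat {a | a ∈ A ∧ ¬ ∃ b, C a b ∧ (v 0).rank ≤ b ∧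
        b ≤ (v 1).rank} x) h5 τ).not
  have hmono : ∀ ξ ξ' η η' γ γ', ξ' ≤ ξ → η ≤ η' → γ ≤ γ' → P ξ η γ → P ξ' η' γ' := by
    intro ξ ξ' η η' γ γ' h3 h4 _ h5 h6
    refine h5 (h6.mono fun a ha _ => ⟨ha.1, fun h7 => ha.2 ?_⟩)
    obtain ⟨b, h8, h9, h10⟩ := h7
    exact ⟨b, h8, h3.trans h9, h10.trans h4⟩
  have h1τ : (1 : Ordinal.{0}) < τ := by
    have h3 : (0 : Ordinal.{0}) < τ := by
      rw [pos_iff_ne_zero]
      intro h
      rw [h, cof_zero] at hcof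
      exact absurd hcof (not_lt.2 zero_le)
    have := hlim.succ_lt h3
    rwa [Order.succ_eq_add_one, zero_add] at this
  obtain ⟨γ, -, e, he, hei⟩ := h2 τ 1 P hτ hcof h1τ hP hmono (by
    intro ξ hξ
    obtain ⟨η, h3, h4⟩ := h1 τ A C hcof hA hAlt hat hC hCu ξ hξ
    exact ⟨η, h3, 0, zero_lt_one, h4⟩)
  -- `e` is increasing on `τ`
  have hlt : ∀ i j, i < j → j < τ → e i < e j := by
    intro i j hij hj
    obtain ⟨-, η, -, h3, h4⟩ := hei i (hij.trans hj)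
    have h5 : e i ≤ η := by
      by_contra hcon
      refine h3 (hat.1.mono fun a ha _ => ⟨ha, ?_⟩)
      rintro ⟨b, -, h6, h7⟩
      exact hcon (h6.trans h7)
    exact h5.trans_lt (h4 j hij hj)
  have hle : ∀ i j, i ≤ j → j < τ → e i ≤ e j := by
    intro i j hij hj
    rcases lt_or_eq_of_le hij with h | h
    · exact (hlt i j h hj).le
    · rw [h]
  refine ⟨fun a i => i < τ ∧ ∃ b, C a b ∧ e i ≤ b ∧ b < e (i + 1), ?_, ?_, ?_⟩
  · refine (DP.rank_lt_ord 1 τ).and ?_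
    refine DP.exO (Q := fun b v => C (v 0).rank b ∧ e (v 1).rank ≤ b ∧
      b < e ((v 1).rank + 1)) ?_
    exact (hC.rename (fun n => if n = 0 then 1 else 0)).and
      ((dp_e_le he 2 0).and (dp_lt_e_succ he 2 0))
  · intro a ha
    obtain ⟨ζ, hζ, g, hg1, hg2⟩ := hCo a ha
    have hsel : ∀ i, ∃ b, (∃ b, C a b ∧ e i ≤ b ∧ b < e (i + 1)) →
        C a b ∧ e i ≤ b ∧ b < e (i + 1) := by
      intro i
      by_cases hi : ∃ b, C a b ∧ e i ≤ b ∧ b < e (i + 1)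
      · obtain ⟨b, hb⟩ := hi
        exact ⟨b, fun _ => hb⟩
      · exact ⟨0, fun h => absurd h hi⟩
    choose b hb using hsel
    refine ⟨ζ, hζ, fun i => g (b i), ?_, ?_⟩
    · intro i hi
      exact hg1 _ (hb i hi.2.2).1
    · intro i hi i' hi' hii
      obtain ⟨h4, h5, h6⟩ := hb i hi.2.2
      obtain ⟨h4', h5', h6'⟩ := hb i' hi'.2.2
      refine hg2 _ h4 _ h4' ?_
      exact h6.trans_le ((hle (i + 1) i' (add_one_le_iff.2 hii) hi'.1).trans h5')
  · intro i hi hstat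
    have hi1 : i + 1 < τ := by
      rw [← Order.succ_eq_add_one]
      exact hlim.succ_lt hi
    obtain ⟨-, η, -, h3, h4⟩ := hei i hi
    refine h3 (hstat.mono fun a ha _ => ⟨ha.1, ?_⟩)
    rintro ⟨b, h8, h9, h10⟩
    exact ha.2 ⟨hi, b, h8, h9, h10.trans_lt (h4 (i + 1) (lt_add_one i) hi1)⟩

end Pool.Agent.Helper22.HV.RX
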